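import Pool.Agent.H47.TorMain

/-!
# MP_d609bd_co, Q1: there is no `d ≥ 3` for which some `P(d, k)` holds

`Pool.Agent.H47.PStatement d k` is the statement `P(d, k)` of the problem; it and the notions it
uses (drawings, toroidal graphs, `k`-planar graphs) are defined in `Pool.Agent.H47.TorDefs`.
-/

set_option autoImplicit false

namespace Pool.Agent.Results.MP_d609bd_co.NoDegreeWorks

open Pool.Agent.H47

/-- The set of all integers `d ≥ 3` such that `P(d, k)` holds for some integer `k ≥ 0` is
empty. -/
theorem result : {d : ℕ | 3 ≤ d ∧ ∃ k : ℕ, PStatement d k} = ∅ := by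
  ext d
  simp only [Set.mem_ofPred_eq, Set.mem_empty_iff_false, iff_false]
  rintro ⟨hd, k, hk⟩
  exact not_P d k hd hk

end Pool.Agent.Results.MP_d609bd_co.NoDegreeWorks
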